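import Pool.Agent.Helper10.Stmt.DefsK

/-!
Hermitian metrics on the tangent bundle with nonpositive curvature in the sense of Griffiths.
-/

open Complex Set
open scoped Manifold ContDiff ComplexConjugate ComplexOrder Topology

namespace Pool.Agent.Helper15.Stmt

open Pool.Agent.Helper10.Stmt

/-- The Chern curvature of the Hermitian metric `g` on the tangent bundle is nonpositive in the sense of
Griffiths, i.e. the bisectional curvature of `g` is nonpositive: for every local holomorphic vector field
`σ` the function `|σ|²` is plurisubharmonic (its Levi form is positive semidefinite). -/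
def GriffithsNonpos (n : ℕ) (X : Type*) [TopologicalSpace X] [ChartedSpace (Fin n → ℂ) X]
    (g : X → Matrix (Fin n) (Fin n) ℂ) : Prop :=
  ∀ (V : Set (Fin n → ℂ)) (ψ : (Fin n → ℂ) → X), Par n ψ V → ∀ σ : (Fin n → ℂ) → Fin n → ℂ,
    DifferentiableOn ℂ σ V → ∀ z ∈ V, ∀ e : Fin n → ℂ, 0 ≤ lev (sqLength n g ψ σ) z e

end Pool.Agent.Helper15.Stmt
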